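import Mathlib
import Pool.Agent.H63.TorusDefs
import Pool.Agent.H63.TorusPadic

/-- Q2 is false: for the splitting field `K` of `x^4 - 6x^3 - 4x^2 + 14x + 10` and `p = 5` the
`p`-adic part of the expected answer fails for the torus `R_{K/ℚ}(𝔾_m)`. -/
theorem Pool.Agent.Results.MP_7de521_nt.PadicCounter.result :
    ∃ (K : Type) (_ : Field K) (_ : NumberField K) (p : ℕ) (_ : Fact p.Prime),
      ¬ Pool.Agent.H63.TorusDefs.PadicExpected K p := by
  obtain ⟨K, _, _, θ, h⟩ := Pool.Agent.H63.TorusField.exists_good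
  exact ⟨K, _, _, 5, _, Pool.Agent.H63.TorusPadic.not_padicExpected h⟩
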